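import Mathlib
import Pool.Agent.Helper62.Mandel.Final

set_option autoImplicit false

/-! # The non-real points of minimum modulus of the Mandelbrot set for pairs of linear maps -/

namespace Pool.Agent.Results.MP_5dd2d4_an.MinimumModulus

open Set
open scoped ComplexConjugate

/-- The attractor `A(q)` of the system `z ↦ q z`, `z ↦ q z + 1`: all sums `∑ σ_k q^k` with digits
`σ_k ∈ {0, 1}`. -/
def attractor (q : ℂ) : Set ℂ :=
  {z | ∃ σ : ℕ → ℂ, (∀ k, σ k = 0 ∨ σ k = 1) ∧ z = ∑' k, σ k * q ^ k}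

/-- The Mandelbrot set for pairs of linear maps: all `q` with `|q| < 1` and connected attractor. -/
def mandelbrot : Set ℂ := {q | ‖q‖ < 1 ∧ IsConnected (attractor q)}

/-- The infimum of the moduli of the non-real points of the Mandelbrot set. -/
noncomputable def rho : ℝ := sInf {r : ℝ | ∃ q ∈ mandelbrot, q.im ≠ 0 ∧ ‖q‖ = r}

/-- `c` is the coefficient sequence of a power series with constant term `1` and real coefficients
in `[-1, 1]` that vanishes at `q`. -/
def IsSeriesAt (q : ℂ) (c : ℕ → ℝ) : Prop :=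
  c 0 = 1 ∧ (∀ k, |c k| ≤ 1) ∧ HasSum (fun k => (c k : ℂ) * q ^ k) 0

/-- The value `∑ k c_k q^k = q f'(q)` for `f(z) = ∑ c_k z^k`. -/
noncomputable def moment (c : ℕ → ℝ) (q : ℂ) : ℂ := ∑' k : ℕ, (k : ℂ) * c k * q ^ k

/-- The first 131 coefficients of the extremal series. -/
def firstCoeffs : List ℤ :=
  [
   1, -1, 1, 1, 1, -1, -1, -1, -1, 1, 1, 1, -1, -1, -1, 1, 1, 1, 1, -1,
   -1, -1, 1, 1, 1, -1, -1, -1, -1, 1, 1, 1, -1, -1, -1, -1, 1, 1, 1, -1,
   -1, -1, 1, 1, 1, 1, -1, -1, -1, 1, 1, 1, -1, -1, -1, -1, 1, 1, 1, -1,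
   -1, -1, -1, 1, 1, 1, -1, -1, -1, 1, 1, 1, 1, -1, -1, -1, 1, 1, 1, -1,
   -1, -1, -1, 1, 1, 1, -1, -1, -1, 1, 1, 1, 1, -1, -1, -1, 1, 1, 1, 1,
   -1, -1, -1, 1, 1, 1, -1, -1, -1, -1, 1, 1, 1, -1, -1, -1, 1, 1, 1, 1,
   -1, -1, -1, 1, 1, 1, 1, -1, -1, -1, 1]

open Pool.Agent.Helper62.Mandel in
lemma rup_eq : rup = (635606390391455492692046961204 : ℝ) / 10 ^ 30 := by
  norm_num [rup, rupN, den]

open Pool.Agent.Helper62.Mandel in
lemma rlow_eq : rlow = (635606390391455492692046961203 : ℝ) / 10 ^ 30 := by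
  norm_num [rlow, rlowN, den]

lemma mandelbrot_eq : mandelbrot = Pool.Agent.Helper62.Mandel.mandelbrot := rfl

lemma neg_mem {q : ℂ} (h : q ∈ mandelbrot) : -q ∈ mandelbrot := by
  rw [mandelbrot_eq, Pool.Agent.Helper62.Mandel.mem_mandelbrot_iff] at *
  obtain ⟨h1, a, h0, ha, hv⟩ := h
  refine ⟨by simpa using h1, fun k => (-1) ^ k * a k, by simp [h0], fun k => ?_, hv.neg⟩
  rcases neg_one_pow_eq_or ℝ k with h2 | h2 <;> rcases ha k with h3 | h3 | h3 <;>
    simp [h2, h3]

lemma conj_mem {q : ℂ} (h : q ∈ mandelbrot) : conj q ∈ mandelbrot := by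
  rw [mandelbrot_eq, Pool.Agent.Helper62.Mandel.mem_mandelbrot_iff] at *
  obtain ⟨h1, a, h0, ha, hv⟩ := h
  exact ⟨by simpa using h1, a, h0, ha, hv.conj⟩

lemma coeffs_eq (k : ℕ) (hk : k ≤ 130) :
    Pool.Agent.Helper62.Mandel.coefOf Pool.Agent.Helper62.Mandel.signs k =
      ((firstCoeffs.getD k 0 : ℤ) : ℝ) := by
  interval_cases k <;>
    simp [Pool.Agent.Helper62.Mandel.coefOf, Pool.Agent.Helper62.Mandel.signs, firstCoeffs]

/-- **Points of minimum modulus.** With `ρ = inf {|q| : q ∈ M, q not real}`: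
* `0.635606390391455492692046961203 < ρ < 0.635606390391455492692046961204`;
* the infimum is attained in every open quadrant;
* every non-real `q ∈ M` with `|q|` at most the upper bound above (in particular every minimal point)
  lies within `10^-28` (in both coordinates) of one of the four points `± x₀ ± i y₀`;
* at a minimal point `q` exactly one power series `f(z) = 1 + ∑ c_k z^k` with real coefficients in
  `[-1, 1]` vanishes; its coefficients are all `±1`, they satisfy the sign rule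
  `c_k = sgn Re (q f'(q) / q^k)`, and the first 131 of them are the listed ones (twisted by
  `(-1)^k` in the left half plane). -/
theorem result :
    (635606390391455492692046961203 : ℝ) / 10 ^ 30 < rho ∧
    rho < (635606390391455492692046961204 : ℝ) / 10 ^ 30 ∧
    (∃ q ∈ mandelbrot, 0 < q.re ∧ 0 < q.im ∧ ‖q‖ = rho ∧
      -q ∈ mandelbrot ∧ conj q ∈ mandelbrot ∧ -conj q ∈ mandelbrot) ∧
    (∀ q ∈ mandelbrot, q.im ≠ 0 → ‖q‖ ≤ (635606390391455492692046961204 : ℝ) / 10 ^ 30 →
      |(|q.re| - 3787770740171809057512705537849996244376 / 10 ^ 40)| < 1 / 10 ^ 28 ∧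
      |(|q.im| - 5104149407153344515486688916434272410818 / 10 ^ 40)| < 1 / 10 ^ 28) ∧
    (∀ q ∈ mandelbrot, q.im ≠ 0 → ‖q‖ = rho →
      ∃ c : ℕ → ℝ, IsSeriesAt q c ∧ (∀ d, IsSeriesAt q d → d = c) ∧
        (∀ k, c k = 1 ∨ c k = -1) ∧
        (∀ k, 1 ≤ k → 0 < c k * (moment c q / q ^ k).re) ∧
        (∀ k, k ≤ 130 → c k = (if 0 ≤ q.re then 1 else (-1) ^ k) *
          ((firstCoeffs.getD k 0 : ℤ) : ℝ))) := by
  obtain ⟨q0, hq0M, hq0im, hq0lt, hq0min⟩ := Pool.Agent.Helper62.Mandel.exists_isMin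
  have hrho : rho = ‖q0‖ := by
    have hl : IsLeast {r : ℝ | ∃ q ∈ mandelbrot, q.im ≠ 0 ∧ ‖q‖ = r} ‖q0‖ := by
      refine ⟨⟨q0, hq0M, hq0im, rfl⟩, ?_⟩
      rintro r ⟨q, hq, him, rfl⟩
      exact hq0min q him (Pool.Agent.Helper62.Mandel.realClass_of_mandelbrot hq)
    exact hl.csInf_eq
  have hloc : ∀ q ∈ mandelbrot, q.im ≠ 0 →
      ‖q‖ ≤ (635606390391455492692046961204 : ℝ) / 10 ^ 30 →
      |(|q.re| - 3787770740171809057512705537849996244376 / 10 ^ 40)| < 1 / 10 ^ 28 ∧
      |(|q.im| - 5104149407153344515486688916434272410818 / 10 ^ 40)| < 1 / 10 ^ 28 := by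
    intro q hq him hup
    rw [← rup_eq] at hup
    have := Pool.Agent.Helper62.Mandel.localization_coords him
      (Pool.Agent.Helper62.Mandel.realClass_of_mandelbrot hq) hup
    simpa [Pool.Agent.Helper62.Mandel.x0, Pool.Agent.Helper62.Mandel.y0,
      Pool.Agent.Helper62.Mandel.q0re, Pool.Agent.Helper62.Mandel.q0im] using this
  refine ⟨?_, ?_, ?_, hloc, ?_⟩
  · rw [hrho, ← rlow_eq]
    exact Pool.Agent.Helper62.Mandel.lower_bound hq0im
      (Pool.Agent.Helper62.Mandel.realClass_of_mandelbrot hq0M)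
  · rw [hrho, ← rup_eq]
    exact hq0lt
  · -- a minimal point in the open first quadrant
    have hre : q0.re ≠ 0 := by
      intro h
      have h1 := (hloc q0 hq0M hq0im (by rw [← rup_eq]; exact hq0lt.le)).1
      rw [h, abs_zero, zero_sub, abs_neg, abs_of_pos (by norm_num)] at h1
      norm_num at h1
    -- move to the right half plane
    obtain ⟨q1, h1M, h1re, h1im, h1n⟩ : ∃ q1 ∈ mandelbrot, 0 < q1.re ∧ q1.im ≠ 0 ∧
        ‖q1‖ = ‖q0‖ := by
      rcases lt_or_gt_of_ne hre with h | h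
      · exact ⟨-q0, neg_mem hq0M, by simpa using h, by simpa using hq0im, by simp⟩
      · exact ⟨q0, hq0M, h, hq0im, rfl⟩
    obtain ⟨q2, h2M, h2re, h2im, h2n⟩ : ∃ q2 ∈ mandelbrot, 0 < q2.re ∧ 0 < q2.im ∧
        ‖q2‖ = ‖q0‖ := by
      rcases lt_or_gt_of_ne h1im with h | h
      · exact ⟨conj q1, conj_mem h1M, by simpa using h1re, by simpa using h, by simpa using h1n⟩
      · exact ⟨q1, h1M, h1re, h, h1n⟩
    exact ⟨q2, h2M, h2re, h2im, by rw [h2n, hrho], neg_mem h2M, conj_mem h2M,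
      neg_mem (conj_mem h2M)⟩
  · intro q hq him hn
    have hn' : ‖q‖ = ‖q0‖ := by rw [hn, hrho]
    have hup : ‖q‖ ≤ Pool.Agent.Helper62.Mandel.rup := by rw [hn']; exact hq0lt.le
    have hmin := Pool.Agent.Helper62.Mandel.isMin_of_norm_eq hq0min hn'
    obtain ⟨c, h0, hc, hv⟩ := Pool.Agent.Helper62.Mandel.realClass_of_mandelbrot hq
    have hsign := fun k hk => Pool.Agent.Helper62.Mandel.sign_rule him hup hmin h0 hc hv k hk
    have hmom : Pool.Agent.Helper62.Mandel.mom 1 c q = moment c q := by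
      simp [Pool.Agent.Helper62.Mandel.mom, moment]
    have habs : ∀ k, |c k| = 1 := by
      intro k
      rcases Nat.eq_zero_or_pos k with rfl | hk
      · rw [h0]; simp
      · exact (hsign k hk).2
    refine ⟨c, ⟨h0, hc, hv⟩, ?_, ?_, ?_, ?_⟩
    · rintro d ⟨g0, gd, gv⟩
      exact Pool.Agent.Helper62.Mandel.series_unique him hup hmin h0 hc hv g0 gd gv
    · intro k
      have h1 := habs k
      rcases abs_choice (c k) with h | h
      · left; rw [← h, h1]
      · right; rw [h] at h1; linarith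
    · intro k hk
      rw [← hmom]
      exact (hsign k hk).1
    · intro k hk
      rw [← coeffs_eq k hk]
      split_ifs with hre
      · rw [one_mul]
        exact Pool.Agent.Helper62.Mandel.ident_exact him hre hup h0 hc hv k hk (habs k)
      · have h1 := Pool.Agent.Helper62.Mandel.ident_exact (q := -q)
          (c := fun k => (-1) ^ k * c k) (by simpa using him)
          (by
            rw [Complex.neg_re]
            linarith)
          (by simpa using hup) (by simp [h0])
          (fun k => by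
            rw [abs_mul, abs_pow, abs_neg, abs_one, one_pow, one_mul]
            exact hc k) hv.neg k hk
          (by
            rw [abs_mul, abs_pow, abs_neg, abs_one, one_pow, one_mul]
            exact habs k)
        rw [← h1, ← mul_assoc, ← mul_pow]
        simp

end Pool.Agent.Results.MP_5dd2d4_an.MinimumModulus
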