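import Mathlib
import Pool.Agent.RTW.Ac
import Pool.Agent.RTW.FpF

set_option autoImplicit false

/-! # The minimum modulus of the Mandelbrot set for linear pairs is computable in polynomial time -/

namespace Pool.Agent.Results.MP_5dd2d4_an.PolynomialTime

open N68a2faeb

/-- The attractor `A(q)` of the system `z ↦ q z`, `z ↦ q z + 1`: all sums `∑ σ_k q^k` with digits
`σ_k ∈ {0, 1}`. -/
def attractor (q : ℂ) : Set ℂ :=
  {z | ∃ σ : ℕ → ℂ, (∀ k, σ k = 0 ∨ σ k = 1) ∧ z = ∑' k, σ k * q ^ k}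

/-- The Mandelbrot set for pairs of linear maps: all `q` with `|q| < 1` and connected attractor. -/
def mandelbrot : Set ℂ := {q | ‖q‖ < 1 ∧ IsConnected (attractor q)}

/-- The infimum of the moduli of the non-real points of the Mandelbrot set. -/
noncomputable def rho : ℝ := sInf {r : ℝ | ∃ q ∈ mandelbrot, q.im ≠ 0 ∧ ‖q‖ = r}

/-- A non-real point of minimum modulus in the open first quadrant. -/
def Minimal (q : ℂ) : Prop := q ∈ mandelbrot ∧ 0 < q.re ∧ 0 < q.im ∧ ‖q‖ = rho

/-- The point `(X + i Y) / 2^(n + 70)` of the pair `(X, Y)`. -/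
noncomputable def gridPoint (n : ℕ) (p : ℕ × ℕ) : ℂ := ((p.1 : ℂ) + p.2 * Complex.I) / 2 ^ (n + 70)

lemma mandelbrot_eq : mandelbrot = Pool.Agent.Helper62.Mandel.mandelbrot := rfl

lemma rho_eq : rho = Pool.Agent.RTW.rho := by
  unfold rho Pool.Agent.RTW.rho
  congr 1
  ext r
  constructor
  · rintro ⟨q, h1, h2, h3⟩
    exact ⟨q, h1, h2, h3.symm⟩
  · rintro ⟨q, h1, h2, h3⟩
    exact ⟨q, h1, h2, h3.symm⟩

lemma minimal_mi {q : ℂ} (h : Minimal q) : ∃ d : ℕ → ℤ, Pool.Agent.RTW.Mi q d := by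
  obtain ⟨h1, h2, h3, h4⟩ := h
  refine Pool.Agent.RTW.mi_of h1 h2 h3 fun w hw him => ?_
  rw [h4, rho_eq]
  exact Pool.Agent.RTW.rho_le hw him

/-- **The minimum modulus of the Mandelbrot set for linear pairs is computable in polynomial time.** Let `ρ` be the
infimum of the moduli of the non-real points. There is a function `f`, computed by a Turing machine in polynomial time,
such that `|2^n ρ - f(x)| ≤ 1` for all inputs `x` of length `n`; and there is a function `g`, computed in polynomial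
time, whose value at an input of length `n` is a list of points of the grid `2^(-n-70) ℤ[i]` such that every minimal
point of the open first quadrant is within `2^(-n)` of a point of the list, and every point of the list is within
`2^(-n)` of a non-real point of the set of modulus at most `ρ + 2^(-n)`. -/
theorem result :
    (∃ f : List Bool → ℕ, IsPolyTime f ∧ ∀ x : List Bool, |2 ^ x.length * rho - f x| ≤ 1) ∧
    (∃ g : List Bool → List (ℕ × ℕ), IsPolyTime g ∧ ∀ x : List Bool,
      (∀ q, Minimal q → ∃ p ∈ g x, ‖q - gridPoint x.length p‖ ≤ 1 / 2 ^ x.length) ∧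
      ∀ p ∈ g x, ∃ ζ ∈ mandelbrot, ζ.im ≠ 0 ∧ ‖ζ - gridPoint x.length p‖ ≤ 1 / 2 ^ x.length ∧
        ‖ζ‖ ≤ rho + 1 / 2 ^ x.length) := by
  refine ⟨?_, ?_⟩
  · refine ⟨Pool.Agent.RTW.fF, Pool.Agent.RTW.poly_fF, fun x => ?_⟩
    rw [rho_eq]
    exact Pool.Agent.RTW.fF_spec x
  · refine ⟨Pool.Agent.RTW.gF, Pool.Agent.RTW.poly_gF, fun x => ⟨fun q hq => ?_, fun p hp => ?_⟩⟩
    · obtain ⟨d, h⟩ := minimal_mi hq
      exact Pool.Agent.RTW.gF_near x h
    · rw [rho_eq]
      exact Pool.Agent.RTW.gF_sound x hp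

end Pool.Agent.Results.MP_5dd2d4_an.PolynomialTime
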