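import Mathlib
import Pool.Agent.RTW.Bb
import Pool.Agent.RTW.Ea

set_option autoImplicit false

/-! # The minimum modulus of the Mandelbrot set for linear pairs: rotation words and the exact rate of approximation -/

namespace Pool.Agent.Results.MP_5dd2d4_an.RotationWords

/-- The attractor `A(q)` of the system `z ↦ q z`, `z ↦ q z + 1`: all sums `∑ σ_k q^k` with digits
`σ_k ∈ {0, 1}`. -/
def attractor (q : ℂ) : Set ℂ :=
  {z | ∃ σ : ℕ → ℂ, (∀ k, σ k = 0 ∨ σ k = 1) ∧ z = ∑' k, σ k * q ^ k}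

/-- The Mandelbrot set for pairs of linear maps: all `q` with `|q| < 1` and connected attractor. -/
def mandelbrot : Set ℂ := {q | ‖q‖ < 1 ∧ IsConnected (attractor q)}

/-- The infimum of the moduli of the non-real points of the Mandelbrot set. -/
noncomputable def rho : ℝ := sInf {r : ℝ | ∃ q ∈ mandelbrot, q.im ≠ 0 ∧ ‖q‖ = r}

/-- A non-real point of minimum modulus in the open first quadrant. -/
def Minimal (q : ℂ) : Prop := q ∈ mandelbrot ∧ 0 < q.re ∧ 0 < q.im ∧ ‖q‖ = rho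

/-- The polynomial `2 - ∑_{k=0}^N (-1)^⌊(a k + c)/b⌋ z^k` (the quotient of natural numbers is rounded down). -/
noncomputable def rotPoly (N a b c : ℕ) (z : ℂ) : ℂ :=
  2 - ∑ k ∈ Finset.range (N + 1), (-1) ^ ((a * k + c) / b) * z ^ k

lemma mandelbrot_eq : mandelbrot = Pool.Agent.Helper62.Mandel.mandelbrot := rfl

lemma rho_eq : rho = Pool.Agent.RTW.rho := by
  unfold rho Pool.Agent.RTW.rho
  congr 1
  ext r
  constructor
  · rintro ⟨q, h1, h2, h3⟩
    exact ⟨q, h1, h2, h3.symm⟩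
  · rintro ⟨q, h1, h2, h3⟩
    exact ⟨q, h1, h2, h3.symm⟩

lemma minimal_mi {q : ℂ} (h : Minimal q) : ∃ d : ℕ → ℤ, Pool.Agent.RTW.Mi q d := by
  obtain ⟨h1, h2, h3, h4⟩ := h
  refine Pool.Agent.RTW.mi_of h1 h2 h3 fun w hw him => ?_
  rw [h4, rho_eq]
  exact Pool.Agent.RTW.rho_le hw him

lemma zpow_sg (m : ℤ) : (-1 : ℂ) ^ m = (Pool.Agent.TRN.sg m : ℂ) := by
  unfold Pool.Agent.TRN.sg
  rcases Int.even_or_odd m with h | h
  · rw [if_pos h, h.neg_one_zpow]
    norm_num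
  · rw [if_neg (Int.not_even_iff_odd.2 h), h.neg_one_zpow]
    norm_num

lemma zpow_sg' (m : ℤ) : (-1 : ℝ) ^ m = (Pool.Agent.TRN.sg m : ℝ) := by
  unfold Pool.Agent.TRN.sg
  rcases Int.even_or_odd m with h | h
  · rw [if_pos h, h.neg_one_zpow]
    norm_num
  · rw [if_neg (Int.not_even_iff_odd.2 h), h.neg_one_zpow]
    norm_num

lemma sg_cases (m : ℤ) : Pool.Agent.TRN.sg m = 1 ∨ Pool.Agent.TRN.sg m = -1 := by
  unfold Pool.Agent.TRN.sg
  split_ifs
  · exact Or.inl rfl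
  · exact Or.inr rfl

lemma partA {q : ℂ} (hq : Minimal q) :
    ∃ x : ℝ, 0 ≤ x ∧ x < 1 ∧
      HasSum (fun k : ℕ => (-1 : ℂ) ^ ⌊(k : ℝ) * (q.arg / Real.pi) + x⌋ * q ^ k) 2 ∧
      ∀ c : ℕ → ℝ, c 0 = 1 → (∀ k, |c k| ≤ 1) → HasSum (fun k => (c k : ℂ) * q ^ k) 0 →
        ∀ k : ℕ, 1 ≤ k → c k = -(-1) ^ ⌊(k : ℝ) * (q.arg / Real.pi) + x⌋ := by
  obtain ⟨d, h⟩ := minimal_mi hq
  obtain ⟨x, hx0, hx1, hph, hd⟩ := Pool.Agent.RTW.rot h
  refine ⟨x, hx0, hx1, ?_, ?_⟩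
  · have h1 := Pool.Agent.Helper62.Mandel.summable_of_bdd (q := q) hq.1.1
      (σ := fun k : ℕ => (Pool.Agent.TRN.sg ⌊(k : ℝ) * (q.arg / Real.pi) + x⌋ : ℂ)) (C := 1) (fun k => by
        rcases sg_cases ⌊(k : ℝ) * (q.arg / Real.pi) + x⌋ with h1 | h1 <;> rw [h1] <;> norm_num)
    have h2 := h1.hasSum
    have h3 : ∑' k : ℕ, (Pool.Agent.TRN.sg ⌊(k : ℝ) * (q.arg / Real.pi) + x⌋ : ℂ) * q ^ k = 2 := by
      have h4 := hph
      unfold Pool.Agent.TRN.Ph at h4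
      rw [h4]
      norm_num
    rw [h3] at h2
    refine (congrArg (fun f => HasSum f (2 : ℂ)) (funext fun k => ?_)).mp h2
    rw [zpow_sg]
  · intro c h0 hc hv k hk
    have hup : ‖q‖ ≤ Pool.Agent.Helper62.Mandel.rup := by
      have h5 : Pool.Agent.Helper62.Mandel.rup = (635606390391455492692046961204 : ℝ) / 10 ^ 30 := by
        norm_num [Pool.Agent.Helper62.Mandel.rup, Pool.Agent.Helper62.Mandel.rupN, Pool.Agent.Helper62.Mandel.den]
      rw [h5]
      exact h.ext.up.le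
    have hdb : ∀ k, |(d k : ℝ)| ≤ 1 := by
      intro k
      rcases h.ext.pm k with h1 | h1 <;> rw [h1] <;> norm_num
    have hdv : Pool.Agent.Helper62.Mandel.Vanish (fun k => (d k : ℝ)) q := by
      have h1 := h.ext.van
      unfold Pool.Agent.Helper62.Mandel.Vanish
      refine (congrArg (fun f => HasSum f (0 : ℂ)) (funext fun k => ?_)).mp h1
      push_cast
      ring
    have h6 := Pool.Agent.Helper62.Mandel.series_unique h.ext.im.ne' hup h.mn (c := c) (d := fun k => (d k : ℝ))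
      h0 hc hv (by simp [h.ext.d0]) hdb hdv
    have h7 := congrFun h6 k
    rw [← h7, hd k hk, zpow_sg']
    push_cast
    ring

/-- **Rotation words for the minimum modulus of the Mandelbrot set for linear pairs.** Let `ρ` be the infimum of the
moduli of the non-real points. At every minimal point `q` of the open first quadrant (there is one) the unique
vanishing series is the coding `c_k = -(-1)^⌊k arg(q)/π + x⌋` of the rotation by `arg(q)/π`. All non-real zeros in the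
unit disc of the polynomials `2 - ∑_{k ≤ N} (-1)^⌊(a k + c)/b⌋ z^k`, `c < b`, have modulus larger than `ρ`, and for
`N ≥ 131` every minimal point is within `ρ^N` of a zero of one of them with `b ≤ 2 N`, `a < 2 b`. The rate is exact:
non-real zeros in the unit disc of polynomials of degree at most `N` with real coefficients in `[-1, 1]` and constant
term `1` have modulus at least `ρ + κ ρ^N`. -/
theorem result :
    (∃ q, Minimal q) ∧
    (∀ q, Minimal q → ∃ x : ℝ, 0 ≤ x ∧ x < 1 ∧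
      HasSum (fun k : ℕ => (-1 : ℂ) ^ ⌊(k : ℝ) * (q.arg / Real.pi) + x⌋ * q ^ k) 2 ∧
      ∀ c : ℕ → ℝ, c 0 = 1 → (∀ k, |c k| ≤ 1) → HasSum (fun k => (c k : ℂ) * q ^ k) 0 →
        ∀ k : ℕ, 1 ≤ k → c k = -(-1) ^ ⌊(k : ℝ) * (q.arg / Real.pi) + x⌋) ∧
    (∀ N a b c : ℕ, c < b → ∀ z : ℂ, z.im ≠ 0 → ‖z‖ < 1 → rotPoly N a b c z = 0 → rho < ‖z‖) ∧
    (∀ q, Minimal q → ∀ N : ℕ, 131 ≤ N → ∃ a b c : ℕ, b ≤ 2 * N ∧ a < 2 * b ∧ c < b ∧
      ∃ z : ℂ, z.im ≠ 0 ∧ ‖z‖ < 1 ∧ rotPoly N a b c z = 0 ∧ ‖z - q‖ ≤ rho ^ N) ∧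
    (∃ κ : ℝ, 0 < κ ∧ ∀ (N : ℕ) (a : ℕ → ℝ), a 0 = 1 → (∀ k, |a k| ≤ 1) → ∀ z : ℂ, z.im ≠ 0 → ‖z‖ < 1 →
      ∑ k ∈ Finset.range (N + 1), (a k : ℂ) * z ^ k = 0 → rho + κ * rho ^ N ≤ ‖z‖) := by
  refine ⟨?_, fun q hq => partA hq, ?_, ?_, ?_⟩
  · obtain ⟨q, d, h⟩ := Pool.Agent.RTW.mi_exists
    refine ⟨q, h.mem, h.ext.re, h.ext.im, ?_⟩
    rw [rho_eq, Pool.Agent.RTW.rho_eq h]
  · intro N a b c hc z him hz h
    rw [rho_eq]
    exact Pool.Agent.RTW.pn_gt hc him hz h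
  · intro q hq N hN
    obtain ⟨d, h⟩ := minimal_mi hq
    obtain ⟨a, b, c, -, h2, h3, h4, z, h5, h6, h7, h8⟩ := Pool.Agent.RTW.pn_near h hN
    rw [rho_eq]
    exact ⟨a, b, c, h2, h3, h4, z, h5, h6, h7, h8⟩
  · obtain ⟨κ, hκ, h⟩ := Pool.Agent.RTW.lowerb
    refine ⟨κ, hκ, fun N a h0 ha z him _ hv => ?_⟩
    rw [rho_eq]
    refine h N (fun k => if k ≤ N then a k else 0) (by simp [h0]) (fun k => ?_) (fun k hk => ?_) z him ?_
    · by_cases hk : k ≤ N
      · simp only [if_pos hk]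
        exact ha k
      · simp only [if_neg hk]
        norm_num
    · simp only [if_neg (show ¬ k ≤ N by omega)]
    · have h1 : HasSum (fun k : ℕ => ((if k ≤ N then a k else 0 : ℝ) : ℂ) * z ^ k)
          (∑ k ∈ Finset.range (N + 1), ((if k ≤ N then a k else 0 : ℝ) : ℂ) * z ^ k) := by
        refine hasSum_sum_of_ne_finset_zero fun k hk => ?_
        rw [Finset.mem_range] at hk
        rw [if_neg (by omega)]
        simp
      have h2 : ∑ k ∈ Finset.range (N + 1), ((if k ≤ N then a k else 0 : ℝ) : ℂ) * z ^ k = 0 := by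
        rw [← hv]
        refine Finset.sum_congr rfl fun k hk => ?_
        rw [Finset.mem_range] at hk
        rw [if_pos (by omega)]
      rw [h2] at h1
      exact h1

end Pool.Agent.Results.MP_5dd2d4_an.RotationWords
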