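import Mathlib
import Pool.Agent.TRN.Main

set_option autoImplicit false

/-! # The non-real points of minimum modulus of the Mandelbrot set for linear pairs are transcendental -/

namespace Pool.Agent.Results.MP_5dd2d4_an.TranscendentalMinimum

/-- The attractor `A(q)` of the system `z ↦ q z`, `z ↦ q z + 1`: all sums `∑ σ_k q^k` with digits
`σ_k ∈ {0, 1}`. -/
def attractor (q : ℂ) : Set ℂ :=
  {z | ∃ σ : ℕ → ℂ, (∀ k, σ k = 0 ∨ σ k = 1) ∧ z = ∑' k, σ k * q ^ k}

/-- The Mandelbrot set for pairs of linear maps: all `q` with `|q| < 1` and connected attractor. -/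
def mandelbrot : Set ℂ := {q | ‖q‖ < 1 ∧ IsConnected (attractor q)}

/-- The infimum of the moduli of the non-real points of the Mandelbrot set. -/
noncomputable def rho : ℝ := sInf {r : ℝ | ∃ q ∈ mandelbrot, q.im ≠ 0 ∧ ‖q‖ = r}

/-- `c` is the coefficient sequence of a power series with constant term `1` and real coefficients
in `[-1, 1]` that vanishes at `q`. -/
def IsSeriesAt (q : ℂ) (c : ℕ → ℝ) : Prop :=
  c 0 = 1 ∧ (∀ k, |c k| ≤ 1) ∧ HasSum (fun k => (c k : ℂ) * q ^ k) 0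

lemma mandelbrot_eq : mandelbrot = Pool.Agent.Helper62.Mandel.mandelbrot := rfl

/-- **The minimal points are transcendental.** The infimum `ρ` of the moduli of the non-real points of the
Mandelbrot set of linear pairs is attained, and every non-real point `q` of the set with `|q| = ρ` is
transcendental over `ℚ`, the number `arg q / π` is irrational, and the coefficients of a power series
`1 + ∑ c_k z^k` with real `c_k ∈ [-1, 1]` that vanishes at `q` are never eventually periodic. -/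
theorem result :
    (∃ q ∈ mandelbrot, q.im ≠ 0 ∧ ‖q‖ = rho) ∧
    ∀ q ∈ mandelbrot, q.im ≠ 0 → ‖q‖ = rho →
      Transcendental ℚ q ∧ Irrational (q.arg / Real.pi) ∧
        ∀ c : ℕ → ℝ, IsSeriesAt q c → ¬ ∃ N T : ℕ, 0 < T ∧ ∀ k, N ≤ k → c (k + T) = c k := by
  have hbdd : BddBelow {r : ℝ | ∃ q ∈ mandelbrot, q.im ≠ 0 ∧ ‖q‖ = r} :=
    ⟨0, by rintro r ⟨q, -, -, rfl⟩; exact norm_nonneg q⟩
  obtain ⟨q0, hq0M, hq0im, hq0lt, hq0min⟩ := Pool.Agent.Helper62.Mandel.exists_isMin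
  have hrho : rho = ‖q0‖ := by
    have hl : IsLeast {r : ℝ | ∃ q ∈ mandelbrot, q.im ≠ 0 ∧ ‖q‖ = r} ‖q0‖ := by
      refine ⟨⟨q0, hq0M, hq0im, rfl⟩, ?_⟩
      rintro r ⟨q, hq, him, rfl⟩
      exact hq0min q him (Pool.Agent.Helper62.Mandel.realClass_of_mandelbrot hq)
    exact hl.csInf_eq
  refine ⟨⟨q0, hq0M, hq0im, hrho.symm⟩, fun q hq him hn => ?_⟩
  have hmin : ∀ w ∈ Pool.Agent.Helper62.Mandel.mandelbrot, w.im ≠ 0 → ‖q‖ ≤ ‖w‖ := by
    intro w hw hwim
    rw [hn]
    exact csInf_le hbdd ⟨w, hw, hwim, rfl⟩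
  obtain ⟨h1, h2⟩ := Pool.Agent.TRN.main hq him hmin
  refine ⟨h1, h2, ?_⟩
  rintro c ⟨h0, hc, hv⟩
  have hn' : ‖q‖ = ‖q0‖ := by rw [hn, hrho]
  have hup : ‖q‖ ≤ Pool.Agent.Helper62.Mandel.rup := by rw [hn']; exact hq0lt.le
  have hmin' := Pool.Agent.Helper62.Mandel.isMin_of_norm_eq hq0min hn'
  have habs : ∀ k, |c k| = 1 := by
    intro k
    rcases Nat.eq_zero_or_pos k with rfl | hk
    · rw [h0]; simp
    · exact (Pool.Agent.Helper62.Mandel.sign_rule him hup hmin' h0 hc hv k hk).2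
  have hex : ∀ k, ∃ d : ℤ, (d = 1 ∨ d = -1) ∧ (d : ℝ) = c k := by
    intro k
    have h3 := habs k
    rcases abs_choice (c k) with h | h
    · exact ⟨1, Or.inl rfl, by rw [← h, h3]; simp⟩
    · refine ⟨-1, Or.inr rfl, ?_⟩
      rw [h] at h3
      push_cast
      linarith
  choose d hd hdc using hex
  have hd0 : d 0 = 1 := by
    have h3 := hdc 0
    rw [h0] at h3
    exact_mod_cast h3
  have hvd : HasSum (fun k => (d k : ℂ) * q ^ k) 0 := by
    have h3 : (fun k => (d k : ℂ) * q ^ k) = fun k => (c k : ℂ) * q ^ k := by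
      funext k
      rw [← hdc k]
      push_cast
      rfl
    rw [h3]
    exact hv
  rintro ⟨N, T, hT, hper⟩
  refine Pool.Agent.TRN.no_period h1 hd0 hq.1 hd hvd ⟨N, T, hT, fun k hk => ?_⟩
  have h3 := hper k hk
  rw [← hdc, ← hdc] at h3
  exact_mod_cast h3

end Pool.Agent.Results.MP_5dd2d4_an.TranscendentalMinimum
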